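import Mathlib
import Pool.Agent.U424.DQ.StmN

/-!
# Project DQN, package FILM (helper129): a point on a degenerate diagonal quadric is near a point on a
nondegenerate one
-/

set_option autoImplicit false
set_option linter.all false

namespace Pool.Agent.U129.DQ

open Pool.Agent.U424.DQ

section

variable {K : Type} [NontriviallyNormedField K]

private theorem n1 (A : K) {δ : ℝ} (hδ : 0 < δ) :
    ∃ B : K, B ≠ 0 ∧ ‖B - A‖ < δ ∧ (A ≠ 0 → B = A) := by
  by_cases h : A = 0
  · obtain ⟨y, hy0, hy⟩ := NormedField.exists_norm_lt K hδ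
    exact ⟨y, norm_pos_iff.1 hy0, by rw [h, sub_zero]; exact hy, fun h1 => absurd h h1⟩
  · exact ⟨A, h, by simpa using hδ, fun _ => rfl⟩

private theorem n2 {B : K} (hB : B ≠ 0) (c x : K) {δ : ℝ} (hδ : 0 < δ) :
    ∃ y : K, ‖y - x‖ < δ ∧ B * y ^ 2 + c ≠ 0 := by
  by_contra hcon
  push Not at hcon
  obtain ⟨e1, h10, h1⟩ := NormedField.exists_norm_lt K hδ
  obtain ⟨e2, h20, h2⟩ := NormedField.exists_norm_lt K h10
  have g0 := hcon x (by simpa using hδ)
  have key : ∀ e : K, 0 < ‖e‖ → ‖e‖ < δ → 2 * x + e = 0 := by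
    intro e he0 he
    have g1 := hcon (x + e) (by simpa using he)
    have he' : e ≠ 0 := norm_pos_iff.1 he0
    have g2 : B * (e * (2 * x + e)) = 0 := by linear_combination g1 - g0
    rcases mul_eq_zero.1 g2 with h | h
    · exact absurd h hB
    · rcases mul_eq_zero.1 h with h | h
      · exact absurd h he'
      · exact h
  have k1 := key e1 h10 h1
  have k2 := key e2 h20 (h2.trans h1)
  have : e1 = e2 := by linear_combination k1 - k2
  rw [this] at h2
  exact lt_irrefl _ h2

end

theorem film_ (K : Type) [NontriviallyNormedField K] : S_FILM K := by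
  intro m hm a z hz heq ε hε
  by_cases hall : ∀ l, a l ≠ 0
  · exact ⟨a, z, hall, fun _ _ => rfl, fun l h => absurd h (hall l), fun l => by
      rw [sub_self, norm_zero]; exact hε, hz, heq⟩
  push Not at hall
  obtain ⟨l0, hl0⟩ := hall
  obtain ⟨l1, hl1⟩ : ∃ l1 : Fin m, l1 ≠ l0 := by
    haveI : Nontrivial (Fin m) := Fin.nontrivial_iff_two_le.2 (by omega)
    exact exists_ne l0
  have hmem : l1 ∈ (Finset.univ : Finset (Fin m)).erase l0 :=
    Finset.mem_erase.2 ⟨hl1, Finset.mem_univ _⟩
  have split : ∀ f : Fin m → K, ∑ l, f l = f l0 + (f l1 +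
      ∑ l ∈ ((Finset.univ : Finset (Fin m)).erase l0).erase l1, f l) := by
    intro f
    rw [Finset.add_sum_erase _ f hmem, Finset.add_sum_erase _ f (Finset.mem_univ l0)]
  obtain ⟨x0, hx0, hx0z, -⟩ := n1 (z l0) hε
  have hpos : 0 < ε * ‖x0 ^ 2‖ := mul_pos hε (norm_pos_iff.2 (pow_ne_zero 2 hx0))
  have hcont : Continuous fun p : (Fin m → K) × K => p.1 l1 * p.2 ^ 2 +
      ∑ l ∈ ((Finset.univ : Finset (Fin m)).erase l0).erase l1, p.1 l * z l ^ 2 := by fun_prop
  obtain ⟨δ, hδ, hcl⟩ := Metric.continuousAt_iff.1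
    (hcont.continuousAt (x := (a, z l1))) _ hpos
  have hm' : 0 < min δ ε := lt_min hδ hε
  choose B hB hBA hBe using fun l => n1 (a l) hm'
  obtain ⟨y, hy, hne⟩ := n2 (hB l1)
    (∑ l ∈ ((Finset.univ : Finset (Fin m)).erase l0).erase l1, B l * z l ^ 2) (z l1) hm'
  have h0 : a l1 * z l1 ^ 2 +
      ∑ l ∈ ((Finset.univ : Finset (Fin m)).erase l0).erase l1, a l * z l ^ 2 = 0 := by
    have := split (fun l => a l * z l ^ 2)
    rw [heq] at this
    simp only [hl0, zero_mul, zero_add] at this
    exact this.symm
  set S : K := B l1 * y ^ 2 +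
    ∑ l ∈ ((Finset.univ : Finset (Fin m)).erase l0).erase l1, B l * z l ^ 2 with hS
  have hsm : ‖S‖ < ε * ‖x0 ^ 2‖ := by
    have h1 := @hcl (B, y) (by
      rw [Prod.dist_eq]
      refine max_lt ?_ ?_
      · refine (dist_pi_lt_iff hδ).2 fun l => ?_
        rw [dist_eq_norm]
        exact (hBA l).trans_le (min_le_left _ _)
      · rw [dist_eq_norm]
        exact hy.trans_le (min_le_left _ _))
    rw [dist_eq_norm] at h1
    simp only [h0, sub_zero] at h1
    exact h1
  refine ⟨Function.update B l0 (-S / x0 ^ 2), Function.update (Function.update z l1 y) l0 x0,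
    ?_, ?_, ?_, ?_, ?_, ?_⟩
  · intro l
    by_cases h : l = l0
    · subst h
      rw [Function.update_self]
      exact div_ne_zero (neg_ne_zero.2 hne) (pow_ne_zero 2 hx0)
    · rw [Function.update_of_ne h]
      exact hB l
  · intro l hl
    have h : l ≠ l0 := fun h => hl (h ▸ hl0)
    rw [Function.update_of_ne h]
    exact hBe l hl
  · intro l hl
    by_cases h : l = l0
    · subst h
      rw [Function.update_self, norm_div, norm_neg,
        div_lt_iff₀ (norm_pos_iff.2 (pow_ne_zero 2 hx0))]
      exact hsm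
    · rw [Function.update_of_ne h]
      have := hBA l
      rw [hl, sub_zero] at this
      exact this.trans_le (min_le_right _ _)
  · intro l
    by_cases h : l = l0
    · subst h
      rw [Function.update_self]
      exact hx0z
    · rw [Function.update_of_ne h]
      by_cases h' : l = l1
      · subst h'
        rw [Function.update_self]
        exact hy.trans_le (min_le_right _ _)
      · rw [Function.update_of_ne h', sub_self, norm_zero]
        exact hε
  · intro h
    have := congrFun h l0
    rw [Function.update_self] at this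
    exact hx0 this
  · rw [split]
    have e1 : ∀ l ∈ ((Finset.univ : Finset (Fin m)).erase l0).erase l1,
        Function.update B l0 (-S / x0 ^ 2) l *
          Function.update (Function.update z l1 y) l0 x0 l ^ 2 = B l * z l ^ 2 := by
      intro l hl
      have h1 : l ≠ l1 := (Finset.mem_erase.1 hl).1
      have h2 : l ≠ l0 := (Finset.mem_erase.1 (Finset.mem_erase.1 hl).2).1
      rw [Function.update_of_ne h2, Function.update_of_ne h2, Function.update_of_ne h1]
    rw [Finset.sum_congr rfl e1, Function.update_self, Function.update_self,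
      Function.update_of_ne hl1, Function.update_of_ne hl1, Function.update_self,
      div_mul_cancel₀ _ (pow_ne_zero 2 hx0), ← hS]
    ring

end Pool.Agent.U129.DQ
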